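import Pool.Agent.R603.HCB.Top
import Pool.Agent.Helper578.JD.Core
import Pool.Agent.Y579.ST.GREEDY

/-!
The complexity of the trees of the derived sets of the limit space, and of its members.
-/

set_option autoImplicit false

namespace Pool.Agent.R603.HCB

open Pool.Agent.Helper578.JD Pool.Agent.Helper578.JD.Oracle

variable {k : ℕ} {α : Type} [Primcodable α]

theorem bridge {A : Set ℕ} {S : α → Prop} :
    Pool.Agent.Helper446.Oracle.REIn A S ↔ REIn A S := Iff.rfl

theorem rein_neg {A : Set ℕ} {S : α → Prop} (h : REIn A S) :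
    REIn (jump A) fun a => ¬ S a := by
  obtain ⟨f, hf, hS⟩ := REIn_iff_jump.1 h
  exact (REIn.not_mem hf).of_eq fun a => not_congr (hS a).symm

theorem rein_jump {A : Set ℕ} {S : α → Prop} (h : REIn A S) : REIn (jump A) S :=
  reMono h (Red_jump A)

/-- all lists of length `L` -/
def allL (k : ℕ) : ℕ → List (List (Fin k))
  | 0 => [[]]
  | L + 1 => (allL k L).flatMap fun τ => (List.finRange k).map fun i => i :: τ

theorem mem_allL {L : ℕ} : ∀ τ : List (Fin k), τ ∈ allL k L ↔ τ.length = L := by
  induction L with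
  | zero =>
    intro τ
    simp [allL]
  | succ L ih =>
    intro τ
    simp only [allL, List.mem_flatMap, List.mem_map, List.mem_finRange, true_and]
    constructor
    · rintro ⟨τ', h1, i, rfl⟩
      rw [List.length_cons, (ih τ').1 h1]
    · intro h
      cases τ with
      | nil => simp at h
      | cons i τ =>
        rw [List.length_cons] at h
        exact ⟨τ, (ih τ).2 (by omega), i, rfl⟩

theorem pr_allL : Primrec (allL k) := by
  have h : Primrec fun L : ℕ => (Nat.rec (motive := fun _ => List (List (Fin k))) [[]]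
      (fun _ l => l.flatMap fun τ => (List.finRange k).map fun i => i :: τ) L) := by
    refine Primrec.nat_rec₁ (f := fun _ (l : List (List (Fin k))) =>
      l.flatMap fun τ => (List.finRange k).map fun i => i :: τ) [[]] ?_
    refine Primrec.list_flatMap (g := fun (_ : ℕ × List (List (Fin k))) (τ : List (Fin k)) =>
      (List.finRange k).map fun i => i :: τ) Primrec.snd ?_
    refine Primrec.list_map (g := fun (p : (ℕ × List (List (Fin k))) × List (Fin k)) (i : Fin k) =>
      i :: p.2) (Primrec.const _) ?_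
    exact Primrec.list_cons.comp Primrec.snd (Primrec.snd.comp Primrec.fst)
  refine h.of_eq fun L => ?_
  induction L with
  | zero => rfl
  | succ L ih => rw [allL, ← ih]

theorem pr_fact : Primrec Nat.factorial := by
  have h : Primrec fun n : ℕ => (Nat.rec (motive := fun _ => ℕ) 1
      (fun n r => (n + 1) * r) n) := by
    refine Primrec.nat_rec₁ (f := fun n (r : ℕ) => (n + 1) * r) 1 ?_
    exact Primrec.nat_mul.comp (Primrec.succ.comp Primrec.fst) Primrec.snd
  refine h.of_eq fun n => ?_
  induction n with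
  | zero => rfl
  | succ n ih => rw [Nat.factorial_succ, ← ih]

theorem c_app {f g : α → List (Fin k)} (hf : Computable f) (hg : Computable g) :
    Computable fun x => f x ++ g x := Computable.list_append.comp hf hg

theorem c_get {f : α → List (Fin k)} {g : α → ℕ} (hf : Computable f) (hg : Computable g) :
    Computable fun x => (f x)[g x]? := Computable.list_getElem?.comp hf hg

/-- The tree of the limit space. -/
theorem base {A : Set ℕ} {c : ℕ → Fin k} (hc : REIn A fun p : ℕ × Fin k => c p.1 = p.2) :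
    REIn (jump A) fun σ : List (Fin k) => ¬ Thr (Limits c) σ := by
  have h1 : REIn A fun q : (List (Fin k) × ℕ) => ∃ y, 0 < y ∧ q.2.factorial ∣ y ∧
      ∀ x < q.1.length, q.1[x]? = some (c (x + y)) := by
    refine REIn.ex (S := fun (q : List (Fin k) × ℕ) y => 0 < y ∧ q.2.factorial ∣ y ∧
      ∀ x < q.1.length, q.1[x]? = some (c (x + y))) ?_
    refine REIn.and (REIn.of_re (RE.lt (by fun_prop) (by fun_prop))) (REIn.and ?_ ?_)
    · have h2 : REPred fun q : (List (Fin k) × ℕ) × ℕ => q.2 % q.1.2.factorial = 0 := by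
        refine RE.eq ?_ (by fun_prop)
        exact Primrec.nat_mod.to_comp.comp Computable.snd
          (pr_fact.to_comp.comp (Computable.snd.comp Computable.fst))
      exact REIn.of_re (h2.of_eq fun q => (Nat.dvd_iff_mod_eq_zero ..).symm)
    · refine REIn.all_lt (S := fun (q : (List (Fin k) × ℕ) × ℕ) x =>
        q.1.1[x]? = some (c (x + q.2))) ?_ ?_
      · have h3 : REIn A fun p : ((List (Fin k) × ℕ) × ℕ) × ℕ => ∃ i : Fin k,
            p.1.1.1[p.2]? = some i ∧ c (p.2 + p.1.2) = i := by
          refine REIn.ex (S := fun (p : ((List (Fin k) × ℕ) × ℕ) × ℕ) (i : Fin k) =>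
            p.1.1.1[p.2]? = some i ∧ c (p.2 + p.1.2) = i) ?_
          refine REIn.and (REIn.of_re (RE.eq ?_ ?_)) ?_
          · exact c_get
              (Computable.fst.comp (Computable.fst.comp (Computable.fst.comp Computable.fst)))
              (Computable.snd.comp Computable.fst)
          · exact Computable.option_some.comp Computable.snd
          · refine hc.comp (f := fun x : (((List (Fin k) × ℕ) × ℕ) × ℕ) × Fin k =>
              (x.1.2 + x.1.1.2, x.2)) (Computable.pair ?_ Computable.snd)
            exact Primrec.nat_add.to_comp.comp (Computable.snd.comp Computable.fst)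
              (Computable.snd.comp (Computable.fst.comp Computable.fst))
        refine h3.of_eq fun p => ⟨?_, fun h => ⟨_, h, rfl⟩⟩
        rintro ⟨i, h4, rfl⟩
        exact h4
      · exact Computable.list_length.comp (Computable.fst.comp Computable.fst)
  have h2 : REIn (jump A) fun σ : List (Fin k) => ∃ N : ℕ, ¬ ∃ y, 0 < y ∧ N.factorial ∣ y ∧
      ∀ x < σ.length, σ[x]? = some (c (x + y)) :=
    REIn.ex (S := fun (σ : List (Fin k)) (N : ℕ) => ¬ ∃ y, 0 < y ∧ N.factorial ∣ y ∧
      ∀ x < σ.length, σ[x]? = some (c (x + y))) (rein_neg h1)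
  exact h2.of_eq fun σ => (not_thr_limits c σ).symm

/-- One more derivative costs two more jumps. -/
theorem step {B : Set ℕ} {K : Set (ℕ → Fin k)} (hK : Cl K)
    (h : REIn B fun σ : List (Fin k) => ¬ Thr K σ) :
    REIn (jump (jump B)) fun σ : List (Fin k) => ¬ Thr (Der K) σ := by
  have h1 : REIn (jump B) fun σ : List (Fin k) => Thr K σ :=
    (rein_neg h).of_eq fun σ => not_not
  have h2 : REIn (jump B) fun ρ : List (Fin k) => ¬ One K ρ := by
    have h3 : REIn (jump B) fun ρ : List (Fin k) => ∃ p : List (Fin k) × List (Fin k),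
        p.1.length = p.2.length ∧ Thr K (ρ ++ p.1) ∧ Thr K (ρ ++ p.2) ∧ p.1 ≠ p.2 := by
      refine REIn.ex (S := fun (ρ : List (Fin k)) (p : List (Fin k) × List (Fin k)) =>
        p.1.length = p.2.length ∧ Thr K (ρ ++ p.1) ∧ Thr K (ρ ++ p.2) ∧ p.1 ≠ p.2) ?_
      refine REIn.and (REIn.of_re (RE.eq ?_ ?_)) (REIn.and ?_ (REIn.and ?_
        (REIn.of_re (RE.ne ?_ ?_))))
      · exact Computable.list_length.comp (Computable.fst.comp Computable.snd)
      · exact Computable.list_length.comp (Computable.snd.comp Computable.snd)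
      · exact h1.comp (f := fun x : List (Fin k) × (List (Fin k) × List (Fin k)) => x.1 ++ x.2.1)
          (c_app Computable.fst (Computable.fst.comp Computable.snd))
      · exact h1.comp (f := fun x : List (Fin k) × (List (Fin k) × List (Fin k)) => x.1 ++ x.2.2)
          (c_app Computable.fst (Computable.snd.comp Computable.snd))
      · exact Computable.fst.comp Computable.snd
      · exact Computable.snd.comp Computable.snd
    refine h3.of_eq fun ρ => ?_
    unfold One
    push Not
    constructor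
    · rintro ⟨p, h4, h5, h6, h7⟩
      exact ⟨p.1, p.2, h4, h5, h6, h7⟩
    · rintro ⟨τ, τ', h4, h5, h6, h7⟩
      exact ⟨(τ, τ'), h4, h5, h6, h7⟩
  have h4 : REIn (jump (jump B)) fun ρ : List (Fin k) => One K ρ :=
    (rein_neg h2).of_eq fun σ => not_not
  have h5 : REIn (jump (jump B)) fun σ : List (Fin k) => ∃ L : ℕ, ∀ τ ∈ allL k L,
      One K (σ ++ τ) := by
    refine REIn.ex (S := fun (σ : List (Fin k)) (L : ℕ) => ∀ τ ∈ allL k L, One K (σ ++ τ)) ?_
    refine REIn.all_mem (S := fun (x : List (Fin k) × ℕ) τ => One K (x.1 ++ τ))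
      (l := fun x => allL k x.2) ?_ (pr_allL.to_comp.comp Computable.snd)
    have h6 : Computable fun x : (List (Fin k) × ℕ) × List (Fin k) => x.1.1 ++ x.2 :=
      c_app (Computable.fst.comp Computable.fst) Computable.snd
    exact REIn.comp h4 h6
  have h7 : ∀ σ : List (Fin k), (∃ L : ℕ, ∀ τ ∈ allL k L, One K (σ ++ τ)) ↔
      ¬ Thr (Der K) σ := fun σ =>
    Iff.trans ⟨fun ⟨L, h⟩ => ⟨L, fun τ hτ => h τ ((mem_allL τ).2 hτ)⟩,
      fun ⟨L, h⟩ => ⟨L, fun τ hτ => h τ ((mem_allL τ).1 hτ)⟩⟩ (not_thr_der hK σ).symm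
  exact h5.of_eq h7

theorem trees {A : Set ℕ} {c : ℕ → Fin k} (hc : REIn A fun p : ℕ × Fin k => c p.1 = p.2) (n : ℕ) :
    REIn (jump^[2 * n + 1] A) fun σ : List (Fin k) => ¬ Thr (Der^[n] (Limits c)) σ := by
  induction n with
  | zero => exact base hc
  | succ n ih =>
    have h := step (cl_iter (cl_limits c) n) ih
    have e : jump^[2 * (n + 1) + 1] A = jump (jump (jump^[2 * n + 1] A)) := by
      rw [show 2 * (n + 1) + 1 = (2 * n + 1) + 1 + 1 by ring, Function.iterate_succ',
        Function.comp, Function.iterate_succ', Function.comp]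
    have e2 : Der^[n + 1] (Limits c) = Der (Der^[n] (Limits c)) :=
      Function.iterate_succ_apply' _ _ _
    rw [e, e2]
    exact h

/-- An isolated member is as complex as the tree. -/
theorem point {B : Set ℕ} {K : Set (ℕ → Fin k)} {g : ℕ → Fin k} (hg : g ∈ K) (hd : g ∉ Der K)
    (h : REIn B fun σ : List (Fin k) => ¬ Thr K σ) :
    REIn B fun p : ℕ × Fin k => g p.1 = p.2 := by
  obtain ⟨σ, hσ⟩ := isolated hg hd
  have h1 : REIn B fun p : ℕ × Fin k => ∃ L : ℕ, p.1 < σ.length + L ∧ ∀ τ ∈ allL k L,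
      (σ ++ τ)[p.1]? = some p.2 ∨ ¬ Thr K (σ ++ τ) := by
    refine REIn.ex (S := fun (p : ℕ × Fin k) (L : ℕ) => p.1 < σ.length + L ∧ ∀ τ ∈ allL k L,
      (σ ++ τ)[p.1]? = some p.2 ∨ ¬ Thr K (σ ++ τ)) ?_
    refine REIn.and (REIn.of_re (RE.lt (by fun_prop) ?_)) ?_
    · have : Primrec fun x : (ℕ × Fin k) × ℕ => σ.length + x.2 :=
        Primrec.nat_add.comp (Primrec.const _) Primrec.snd
      exact this.to_comp
    · refine REIn.all_mem (S := fun (x : (ℕ × Fin k) × ℕ) τ =>
        (σ ++ τ)[x.1.1]? = some x.1.2 ∨ ¬ Thr K (σ ++ τ)) (l := fun x => allL k x.2) ?_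
        (pr_allL.to_comp.comp Computable.snd)
      have h2 : Computable fun x : ((ℕ × Fin k) × ℕ) × List (Fin k) => σ ++ x.2 :=
        c_app (Computable.const σ) Computable.snd
      refine REIn.or (REIn.of_re (RE.eq ?_ ?_)) (h.comp h2)
      · exact c_get h2
          (Computable.fst.comp (Computable.fst.comp Computable.fst))
      · exact Computable.option_some.comp
          (Computable.snd.comp (Computable.fst.comp Computable.fst))
  refine h1.of_eq fun p => ?_
  rw [hσ p.1 p.2]
  simp only [mem_allL]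

theorem red_iter (A : Set ℕ) : ∀ {m n : ℕ}, m ≤ n → Red (jump^[m] A) (jump^[n] A) := by
  intro m n h
  induction h with
  | refl => exact Red.refl _
  | step h ih =>
    rw [Function.iterate_succ', Function.comp]
    exact ih.trans (Red_jump _)

/-- **The upper bound.** -/
theorem upper {A : Set ℕ} {c g : ℕ → Fin k} (hc : REIn A fun p : ℕ × Fin k => c p.1 = p.2)
    (hg : Recurrent c g) {n : ℕ} (hn : g ∉ Der^[n + 1] (Limits c)) :
    ∃ (i : Fin k) (X : Set ℕ), Pool.Agent.Y579.ST.Sol c i X ∧
      (REIn (jump^[2 * n + 1] A) fun m : ℕ => m ∈ X) ∧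
      REIn (jump^[2 * n + 1] A) fun m : ℕ => m ∉ X := by
  obtain ⟨j, hj, h1, h2⟩ := exists_rank hg.mem hn
  have h3 : REIn (jump^[2 * n + 1] A) fun p : ℕ × Fin k => g p.1 = p.2 :=
    reMono (point h1 h2 (trees hc j)) (red_iter A (by omega))
  have h4 : REIn (jump^[2 * n + 1] A) fun p : ℕ × Fin k => c p.1 = p.2 :=
    reMono hc (red_iter (m := 0) A (by omega))
  obtain ⟨X, hX, h5, h6⟩ := Pool.Agent.Y579.ST.t_GREEDY k c g (g 0) (jump^[2 * n + 1] A)
    (bridge.2 h4) (bridge.2 h3) (by
      intro S N hS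
      obtain ⟨y, hy0, hy1, hy2⟩ := hg (N + S.sup id + 2)
      have h7 : N + S.sup id + 2 ≤ y := (Nat.self_le_factorial _).trans (Nat.le_of_dvd hy0 hy1)
      have h8 := hy2 0 (by omega)
      rw [zero_add] at h8
      refine ⟨y, by omega, h8.1, h8.2, fun s hs => ?_⟩
      have h9 : s ≤ S.sup id := Finset.le_sup (f := id) hs
      have h10 := hy2 s (by omega)
      rw [h10.1, h10.2]
      exact ⟨(hS s hs).2, (hS s hs).2⟩)
  exact ⟨g 0, X, hX, h5, h6⟩

end Pool.Agent.R603.HCB
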