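import Pool.Agent.R603.HCB.Cmp
import Pool.Agent.Y545.HM.St

/-!
Finite limit spaces, Turing ideals closed under the jump.
-/

set_option autoImplicit false

namespace Pool.Agent.R603.HCB

open Filter Pool.Agent.Y545.HM.St Pool.Agent.Helper578.JD

variable {k : ℕ}

theorem der_finite {K : Set (ℕ → Fin k)} (hK : K.Finite) : Der K = ∅ := by
  rw [Set.eq_empty_iff_forall_notMem]
  intro g hg
  choose f hf1 hf2 hf3 using hg
  have := hK.to_subtype
  obtain ⟨h, hh⟩ :=
    ((hyperfilter ℕ).map (fun N => (⟨f N, hf1 N⟩ : K))).eq_pure_of_finite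
  have h1 : ∀ᶠ N in (hyperfilter ℕ : Filter ℕ), f N = h := by
    have h2 : ({h} : Set K) ∈ (hyperfilter ℕ).map (fun N => (⟨f N, hf1 N⟩ : K)) := by
      rw [hh]; exact Ultrafilter.mem_pure.2 rfl
    have h3 : ∀ᶠ N in (hyperfilter ℕ : Filter ℕ), (⟨f N, hf1 N⟩ : K) = h := h2
    exact h3.mono fun N hN => congrArg Subtype.val hN
  have h2 : (h : ℕ → Fin k) = g := by
    funext x
    obtain ⟨N, h3, h4⟩ :=
      (h1.and (Nat.hyperfilter_le_atTop (eventually_ge_atTop (x + 1)))).exists
    rw [← h3, hf3 N x (by omega)]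
  obtain ⟨N, h3⟩ := h1.exists
  exact hf2 N (h3.trans h2)

theorem limits_finite {c : ℕ → Fin k} {W : ℕ} (h : ∀ m, Eventual c m W) :
    (Limits c).Finite := by
  let E : ℕ → ℕ → Prop := fun x y => ∃ n, ∀ t, 1 ≤ t → c (x + 2 ^ n * t) = c (y + 2 ^ n * t)
  have hE : Equivalence E := by
    refine ⟨fun x => ⟨0, fun _ _ => rfl⟩, ?_, ?_⟩
    · rintro x y ⟨n, hn⟩
      exact ⟨n, fun t ht => (hn t ht).symm⟩
    · rintro x y z ⟨n, hn⟩ ⟨m, hm⟩
      refine ⟨n + m, fun t ht => ?_⟩
      have h1 := hn (2 ^ m * t) (Nat.mul_pos (by positivity) ht)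
      have h2 := hm (2 ^ n * t) (Nat.mul_pos (by positivity) ht)
      rw [← mul_assoc, ← pow_add] at h1
      rw [← mul_assoc, ← pow_add, add_comm m n] at h2
      exact h1.trans h2
  let s : Setoid ℕ := ⟨E, hE⟩
  have hf : Finite (Quotient s) := by
    by_contra hinf
    rw [not_finite_iff_infinite] at hinf
    let e := Infinite.natEmbedding (Quotient s)
    let v : Fin (W + 1) → ℕ := fun i => (e i).out
    have hm : ∀ i, v i < 2 ^ (∑ i, v i) := fun i =>
      lt_of_le_of_lt (Finset.single_le_sum (f := v) (fun _ _ => Nat.zero_le _)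
        (Finset.mem_univ i)) Nat.lt_two_pow_self
    obtain ⟨i, j, hij, n, hn⟩ := h _ v hm
    have h1 : e i = e j := by
      rw [← Quotient.out_eq (e i), ← Quotient.out_eq (e j)]
      exact Quotient.sound ⟨n, hn⟩
    exact hij (Fin.ext (e.injective h1))
  have key : ∀ g ∈ Limits c, ∀ x y, E x y → g x = g y := by
    rintro g hg x y ⟨n, hn⟩
    obtain ⟨z, hz0, hz1, hz2⟩ := hg (2 ^ n + x + y + 1)
    have h1 : 2 ^ n ∣ z := (Nat.dvd_factorial (by positivity) (by omega)).trans hz1
    obtain ⟨t, rfl⟩ := h1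
    have ht : 1 ≤ t := by
      rcases Nat.eq_zero_or_pos t with rfl | h2
      · simp at hz0
      · exact h2
    have hp : 0 < 2 ^ n := by positivity
    rw [← hz2 x (by omega), ← hz2 y (by omega)]
    exact hn t ht
  have h2 : Finite (Limits c) := by
    refine Finite.of_injective
      (fun (g : Limits c) (q : Quotient s) => (g : ℕ → Fin k) q.out) ?_
    intro g g' h3
    apply Subtype.ext
    funext x
    have h4 : E x (Quotient.mk s x).out := hE.symm (Quotient.mk_out (s := s) x)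
    have h5 : (g : ℕ → Fin k) (Quotient.mk s x).out = (g' : ℕ → Fin k) (Quotient.mk s x).out :=
      congrFun h3 (Quotient.mk s x)
    rw [key g g.2 _ _ h4, key g' g'.2 _ _ h4, h5]
  exact Set.toFinite _

theorem der_iter_anti {K : Set (ℕ → Fin k)} (hK : Cl K) (n : ℕ) :
    Der^[n + 1] K ⊆ Der^[n] K := by
  rw [Function.iterate_succ_apply']
  exact der_sub (cl_iter hK n)

theorem jump_mem {I : Set (Set ℕ)} (hA : ACA I) {A : Set ℕ} (h : A ∈ I) (n : ℕ) :
    jump^[n] A ∈ I := by
  induction n with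
  | zero => exact h
  | succ n ih =>
    rw [Function.iterate_succ_apply']
    exact hA _ ih _ (enum_iff.2 (bridge.2 mem_jump_re))

end Pool.Agent.R603.HCB
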