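import Mathlib

/-!
The space of the limits of the translates of a colouring: closedness, derived sets, recurrent
limits from idempotent ultrafilters.
-/

set_option autoImplicit false

namespace Pool.Agent.R603.HCB

open Filter Topology

/-- The limit space of the colouring `c`: all limits of the translates `x ↦ c (x + y)` along
positive numbers `y` that tend to `0` in the profinite topology. -/
def Limits {k : ℕ} (c : ℕ → Fin k) : Set (ℕ → Fin k) :=
  {g | ∀ N : ℕ, ∃ y, 0 < y ∧ N.factorial ∣ y ∧ ∀ x < N, c (x + y) = g x}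

/-- `g` is a limit of the translates of `c` and of its own translates, along the same numbers. -/
def Recurrent {k : ℕ} (c g : ℕ → Fin k) : Prop :=
  ∀ N : ℕ, ∃ y, 0 < y ∧ N.factorial ∣ y ∧ ∀ x < N, c (x + y) = g x ∧ g (x + y) = g x

variable {k : ℕ}

theorem Recurrent.mem {c g : ℕ → Fin k} (h : Recurrent c g) : g ∈ Limits c := fun N => by
  obtain ⟨y, h1, h2, h3⟩ := h N
  exact ⟨y, h1, h2, fun x hx => (h3 x hx).1⟩

/-- closed sets -/
def Cl (K : Set (ℕ → Fin k)) : Prop := ∀ g, (∀ N : ℕ, ∃ h ∈ K, ∀ x < N, h x = g x) → g ∈ K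

/-- the derived set -/
def Der (K : Set (ℕ → Fin k)) : Set (ℕ → Fin k) :=
  {g | ∀ N : ℕ, ∃ h ∈ K, h ≠ g ∧ ∀ x < N, h x = g x}

theorem derivedSet_eq (K : Set (ℕ → Fin k)) : derivedSet K = Der K := by
  ext g
  rw [mem_derivedSet, accPt_iff_nhds]
  constructor
  · intro h N
    obtain ⟨h', ⟨h1, h2⟩, h3⟩ := h (PiNat.cylinder g N)
      ((PiNat.isOpen_cylinder _ g N).mem_nhds (PiNat.self_mem_cylinder g N))
    exact ⟨h', h2, h3, fun x hx => PiNat.mem_cylinder_iff.1 h1 x hx⟩
  · intro h U hU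
    obtain ⟨V, ⟨y, n, rfl⟩, h1, h2⟩ :=
      (PiNat.isTopologicalBasis_cylinders (fun _ : ℕ => Fin k)).mem_nhds_iff.1 hU
    obtain ⟨h', h3, h4, h5⟩ := h n
    refine ⟨h', ⟨h2 ?_, h3⟩, h4⟩
    rw [PiNat.mem_cylinder_iff] at h1 ⊢
    intro i hi
    rw [h5 i hi, h1 i hi]

theorem derivedSet_iter (K : Set (ℕ → Fin k)) (n : ℕ) : derivedSet^[n] K = Der^[n] K := by
  have : (derivedSet : Set (ℕ → Fin k) → Set (ℕ → Fin k)) = Der := funext derivedSet_eq
  rw [this]

theorem cl_limits (c : ℕ → Fin k) : Cl (Limits c) := by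
  intro g hg N
  obtain ⟨h, h1, h2⟩ := hg N
  obtain ⟨y, h3, h4, h5⟩ := h1 N
  exact ⟨y, h3, h4, fun x hx => by rw [h5 x hx, h2 x hx]⟩

theorem cl_der (K : Set (ℕ → Fin k)) : Cl (Der K) := by
  intro g hg N
  obtain ⟨h, h1, h2⟩ := hg N
  by_cases he : h = g
  · subst he
    exact h1 N
  · obtain ⟨z, hz⟩ := Function.ne_iff.1 he
    obtain ⟨h', h3, h4, h5⟩ := h1 (max N (z + 1))
    refine ⟨h', h3, ?_, fun x hx => ?_⟩
    · rintro rfl
      exact hz (h5 z (by omega)).symm
    · rw [h5 x (by omega), h2 x hx]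

theorem der_sub {K : Set (ℕ → Fin k)} (hK : Cl K) : Der K ⊆ K := fun g hg =>
  hK g fun N => by
    obtain ⟨h, h1, -, h2⟩ := hg N
    exact ⟨h, h1, h2⟩

theorem cl_iter {K : Set (ℕ → Fin k)} (hK : Cl K) (n : ℕ) : Cl (Der^[n] K) := by
  cases n with
  | zero => exact hK
  | succ n => rw [Function.iterate_succ', Function.comp]; exact cl_der _

/-! ### limits along an ultrafilter -/

theorem exists_lim {ι : Type} (U : Ultrafilter ι) (f : ι → Fin k) : ∃ i, ∀ᶠ y in U, f y = i := by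
  obtain ⟨i, hi⟩ := (U.map f).eq_pure_of_finite
  refine ⟨i, ?_⟩
  have h : ({i} : Set (Fin k)) ∈ U.map f := by
    rw [hi]
    exact Ultrafilter.mem_pure.2 rfl
  exact h

theorem exists_lim_fun {ι : Type} (U : Ultrafilter ι) (f : ι → ℕ → Fin k) :
    ∃ g : ℕ → Fin k, ∀ N : ℕ, ∀ᶠ y in U, ∀ x < N, f y x = g x := by
  choose g hg using fun x : ℕ => exists_lim U (fun y => f y x)
  refine ⟨g, fun N => ?_⟩
  exact (Filter.eventually_all_finite (Set.finite_Iio N)).2 fun x _ => hg x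

attribute [local instance] Ultrafilter.add

theorem exists_recurrent (c : ℕ → Fin k) : ∃ g, Recurrent c g := by
  obtain ⟨U, hU, -⟩ := Hindman.exists_idempotent_ultrafilter_le_FS (M := ℕ+) (fun _ => 1)
  have hadd : ∀ p : ℕ+ → Prop, (∀ᶠ y in U, p y) → ∀ᶠ y in U, ∀ᶠ z in U, p (y + z) := by
    intro p hp
    have h1 : ∀ᶠ y in ((U + U : Ultrafilter ℕ+) : Filter ℕ+), p y := by rw [hU]; exact hp
    exact h1
  have hdvd : ∀ m : ℕ, 0 < m → ∀ᶠ y : ℕ+ in U, m ∣ (y : ℕ) := by
    intro m hm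
    have : NeZero m := ⟨hm.ne'⟩
    obtain ⟨r, hr⟩ := exists_lim U (fun y : ℕ+ => Fin.ofNat m (y : ℕ))
    have hr' : ∀ᶠ y : ℕ+ in U, (y : ℕ) % m = r.val := hr.mono fun y hy => by
      rw [← hy]; simp
    obtain ⟨y, hy1, hy2⟩ := ((hadd _ hr').and hr').exists
    obtain ⟨z, hz1, hz2⟩ := (hy1.and hr').exists
    have hr0 : r.val = 0 := by
      rw [PNat.add_coe, Nat.add_mod, hy2, hz2] at hz1
      have h3 := r.isLt
      by_contra h0
      rcases lt_or_ge (r.val + r.val) m with h | h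
      · rw [Nat.mod_eq_of_lt h] at hz1; omega
      · rw [Nat.mod_eq_sub_mod h, Nat.mod_eq_of_lt (by omega)] at hz1; omega
    exact hr'.mono fun y hy => Nat.dvd_of_mod_eq_zero (by rw [hy, hr0])
  choose g hg using fun x : ℕ => exists_lim U (fun y : ℕ+ => c (x + y))
  have hgg : ∀ x : ℕ, ∀ᶠ y : ℕ+ in U, g (x + y) = g x := by
    intro x
    filter_upwards [hadd _ (hg x)] with y hy
    obtain ⟨z, h1, h2⟩ := (hy.and (hg (x + y))).exists
    rw [← h1, ← h2, PNat.add_coe, add_assoc]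
  refine ⟨g, fun N => ?_⟩
  have h1 : ∀ᶠ y : ℕ+ in U, ∀ x ∈ Set.Iio N, c (x + y) = g x ∧ g (x + y) = g x :=
    (Filter.eventually_all_finite (Set.finite_Iio N)).2 fun x _ => (hg x).and (hgg x)
  obtain ⟨y, h2, h3⟩ := (h1.and (hdvd N.factorial N.factorial_pos)).exists
  exact ⟨y, y.pos, h3, fun x hx => h2 x hx⟩

/-! ### trees -/

/-- the function passes through the node -/
def Agr (σ : List (Fin k)) (h : ℕ → Fin k) : Prop := ∀ x < σ.length, σ[x]? = some (h x)

/-- the nodes of the tree of a set -/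
def Thr (K : Set (ℕ → Fin k)) (σ : List (Fin k)) : Prop := ∃ h ∈ K, Agr σ h

/-- at most one member of the set passes through the node -/
def One (K : Set (ℕ → Fin k)) (ρ : List (Fin k)) : Prop :=
  ∀ τ τ' : List (Fin k), τ.length = τ'.length → Thr K (ρ ++ τ) → Thr K (ρ ++ τ') → τ = τ'

/-- a piece of a function -/
def pc (h : ℕ → Fin k) (a L : ℕ) : List (Fin k) := (List.range L).map fun j => h (a + j)

theorem pc_length (h : ℕ → Fin k) (a L : ℕ) : (pc h a L).length = L := by simp [pc]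

theorem agr_append_pc {ρ : List (Fin k)} {h : ℕ → Fin k} (hρ : Agr ρ h) (L : ℕ) :
    Agr (ρ ++ pc h ρ.length L) h := by
  intro x hx
  rw [List.length_append, pc_length] at hx
  by_cases hx1 : x < ρ.length
  · rw [List.getElem?_append_left hx1]
    exact hρ x hx1
  · rw [List.getElem?_append_right (by omega)]
    unfold pc
    rw [List.getElem?_map, List.getElem?_range (by omega)]
    simp only [Option.map_some, Option.some.injEq]
    congr 1
    omega

theorem Agr.left {ρ τ : List (Fin k)} {h : ℕ → Fin k} (hρ : Agr (ρ ++ τ) h) : Agr ρ h := by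
  intro x hx
  have h1 := hρ x (by rw [List.length_append]; omega)
  rwa [List.getElem?_append_left hx] at h1

theorem Agr.right {ρ τ : List (Fin k)} {h : ℕ → Fin k} (hρ : Agr (ρ ++ τ) h) :
    ∀ x < τ.length, τ[x]? = some (h (ρ.length + x)) := by
  intro x hx
  have h1 := hρ (ρ.length + x) (by rw [List.length_append]; omega)
  rwa [List.getElem?_append_right (by omega), Nat.add_sub_cancel_left] at h1

theorem Agr.eq {ρ : List (Fin k)} {h h' : ℕ → Fin k} (h1 : Agr ρ h) (h2 : Agr ρ h') :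
    ∀ x < ρ.length, h x = h' x := by
  intro x hx
  have := (h1 x hx).symm.trans (h2 x hx)
  exact Option.some.inj this

theorem one_iff {K : Set (ℕ → Fin k)} {ρ : List (Fin k)} :
    One K ρ ↔ ∀ h ∈ K, ∀ h' ∈ K, Agr ρ h → Agr ρ h' → h = h' := by
  constructor
  · intro h1 h hK h' hK' ha ha'
    funext x
    by_cases hx : x < ρ.length
    · exact Agr.eq ha ha' x hx
    · have h2 := h1 (pc h ρ.length (x + 1)) (pc h' ρ.length (x + 1))
        (by rw [pc_length, pc_length]) ⟨h, hK, agr_append_pc ha _⟩ ⟨h', hK', agr_append_pc ha' _⟩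
      have h3 : Agr (ρ ++ pc h ρ.length (x + 1)) h' := by
        rw [h2]
        exact agr_append_pc ha' _
      exact Agr.eq (agr_append_pc ha _) h3 x (by rw [List.length_append, pc_length]; omega)
  · intro h1 τ τ' hl ⟨h, hK, ha⟩ ⟨h', hK', ha'⟩
    have h2 := h1 h hK h' hK' ha.left ha'.left
    subst h2
    apply List.ext_getElem?
    intro x
    by_cases hx : x < τ.length
    · rw [ha.right x hx, ha'.right x (by omega)]
    · rw [List.getElem?_eq_none (by omega), List.getElem?_eq_none (by omega)]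

/-- The derived set avoids a node if and only if the set is finite above the node. -/
theorem not_thr_der {K : Set (ℕ → Fin k)} (hK : Cl K) (σ : List (Fin k)) :
    ¬ Thr (Der K) σ ↔ ∃ L : ℕ, ∀ τ : List (Fin k), τ.length = L → One K (σ ++ τ) := by
  constructor
  · intro hn
    by_contra hc
    simp only [not_exists, not_forall] at hc
    have h1 : ∀ L : ℕ, ∃ u v : ℕ → Fin k, u ∈ K ∧ v ∈ K ∧ u ≠ v ∧ Agr σ u ∧
        ∀ x < L, v x = u x := by
      intro L
      obtain ⟨τ, hτ, h2⟩ := hc L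
      rw [one_iff] at h2
      push Not at h2
      obtain ⟨u, hu, v, hv, h3, h4, h5⟩ := h2
      refine ⟨u, v, hu, hv, h5, h3.left, fun x hx => Agr.eq h4 h3 x ?_⟩
      rw [List.length_append]
      omega
    choose u v hu hv huv hσ heq using h1
    obtain ⟨h, hh⟩ := exists_lim_fun (hyperfilter ℕ) u
    have hN : ∀ N : ℕ, ∀ᶠ L in (hyperfilter ℕ : Filter ℕ), N ≤ L := fun N =>
      (Nat.hyperfilter_le_atTop) (eventually_ge_atTop N)
    apply hn
    refine ⟨h, fun N => ?_, fun x hx => ?_⟩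
    · obtain ⟨L, h2, h3⟩ := ((hh N).and (hN N)).exists
      by_cases he : u L = h
      · refine ⟨v L, hv L, ?_, fun x hx => ?_⟩
        · intro h4
          exact huv L (he.trans h4.symm)
        · rw [heq L x (by omega), he]
      · exact ⟨u L, hu L, he, h2⟩
    · obtain ⟨L, h2⟩ := (hh σ.length).exists
      rw [hσ L x hx, h2 x hx]
  · rintro ⟨L, hL⟩ ⟨h, h1, h2⟩
    have h3 := one_iff.1 (hL (pc h σ.length L) (pc_length _ _ _))
    obtain ⟨h', h4, h5, h6⟩ := h1 (σ.length + L)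
    refine h5 (h3 h' h4 h (der_sub hK h1) ?_ (agr_append_pc h2 L))
    intro x hx
    rw [agr_append_pc h2 L x hx]
    rw [List.length_append, pc_length] at hx
    rw [h6 x hx]

/-- The tree of the limit space. -/
theorem not_thr_limits (c : ℕ → Fin k) (σ : List (Fin k)) :
    ¬ Thr (Limits c) σ ↔ ∃ N : ℕ, ¬ ∃ y, 0 < y ∧ N.factorial ∣ y ∧
      ∀ x < σ.length, σ[x]? = some (c (x + y)) := by
  constructor
  · intro hn
    by_contra hc
    push Not at hc
    choose y hy1 hy2 hy3 using hc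
    obtain ⟨h, hh⟩ := exists_lim_fun (hyperfilter ℕ) (fun N x => c (x + y N))
    have hN : ∀ N : ℕ, ∀ᶠ L in (hyperfilter ℕ : Filter ℕ), N ≤ L := fun N =>
      (Nat.hyperfilter_le_atTop) (eventually_ge_atTop N)
    apply hn
    refine ⟨h, fun N => ?_, fun x hx => ?_⟩
    · obtain ⟨L, h2, h3⟩ := ((hh N).and (hN N)).exists
      exact ⟨y L, hy1 L, (Nat.factorial_dvd_factorial h3).trans (hy2 L), h2⟩
    · obtain ⟨L, h2⟩ := (hh σ.length).exists
      rw [hy3 L x hx, ← h2 x hx]
  · rintro ⟨N, hN⟩ ⟨h, h1, h2⟩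
    obtain ⟨y, h3, h4, h5⟩ := h1 (max N σ.length)
    refine hN ⟨y, h3, (Nat.factorial_dvd_factorial (le_max_left _ _)).trans h4, fun x hx => ?_⟩
    rw [h2 x hx, h5 x (lt_of_lt_of_le hx (le_max_right _ _))]

/-- An isolated point is determined by the tree. -/
theorem isolated {K : Set (ℕ → Fin k)} {g : ℕ → Fin k} (hg : g ∈ K) (hd : g ∉ Der K) :
    ∃ σ : List (Fin k), ∀ (x : ℕ) (i : Fin k), g x = i ↔
      ∃ L : ℕ, x < σ.length + L ∧ ∀ τ : List (Fin k), τ.length = L →
        (σ ++ τ)[x]? = some i ∨ ¬ Thr K (σ ++ τ) := by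
  have h1 : ∃ N : ℕ, ∀ h ∈ K, (∀ x < N, h x = g x) → h = g := by
    by_contra hc
    push Not at hc
    refine hd fun N => ?_
    obtain ⟨h, h2, h3, h4⟩ := hc N
    exact ⟨h, h2, h4, h3⟩
  obtain ⟨N, hN⟩ := h1
  have hσ : Agr (pc g 0 N) g := by
    have := agr_append_pc (ρ := []) (h := g) (fun x hx => absurd hx (Nat.not_lt_zero _)) N
    simpa using this
  refine ⟨pc g 0 N, fun x i => ⟨?_, ?_⟩⟩
  · rintro rfl
    refine ⟨x + 1, by omega, fun τ hτ => ?_⟩
    by_contra hc
    rw [not_or, not_not] at hc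
    obtain ⟨hc1, h, hK, ha⟩ := hc
    have h2 : h = g := hN h hK fun x hx => Agr.eq ha.left hσ x (by rw [pc_length]; exact hx)
    subst h2
    exact hc1 (ha x (by rw [List.length_append, hτ]; omega))
  · rintro ⟨L, hx, hL⟩
    rcases hL (pc g (pc g 0 N).length L) (pc_length _ _ _) with h2 | h2
    · rw [agr_append_pc hσ L x (by rw [List.length_append, pc_length (k := k) g _ L]; exact hx)] at h2
      exact Option.some.inj h2
    · exact absurd ⟨g, hg, agr_append_pc hσ L⟩ h2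

/-- the rank of a member -/
theorem exists_rank {K : Set (ℕ → Fin k)} {g : ℕ → Fin k} (hg : g ∈ K) {n : ℕ}
    (hn : g ∉ Der^[n + 1] K) : ∃ j ≤ n, g ∈ Der^[j] K ∧ g ∉ Der (Der^[j] K) := by
  induction n with
  | zero => exact ⟨0, le_refl _, hg, hn⟩
  | succ n ih =>
    by_cases h : g ∈ Der^[n + 1] K
    · refine ⟨n + 1, le_refl _, h, ?_⟩
      rwa [Function.iterate_succ', Function.comp] at hn
    · obtain ⟨j, h1, h2⟩ := ih h
      exact ⟨j, by omega, h2⟩

end Pool.Agent.R603.HCB
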